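import Pool.Agent.H27.Orl.KKDef
import Pool.Agent.H91.MF.ChiRad
import Pool.Agent.H63.KA.Defs

/-!
# KUD-22 Chi: the Euler form of `KK hf`

`finrank_kObj`: the linear map `MF.Z E F (3 i) → (kObj E ⟶ (kObj F)⟦i⟧)`, `α ↦ kNm hf i α _`
(`kNm_add`, `kNm_smul`) is surjective (`exists_kNm`) with kernel `(B E F (3 i)).submoduleOf (Z E F (3 i))`
(`kNm_eq_zero_iff`), so it induces a linear equivalence `MF.HH E F (3 i) ≃ₗ[ℂ] (kObj E ⟶ (kObj F)⟦i⟧)`
(`LinearMap.quotKerEquivOfSurjective`, `Submodule.quotEquivOfEq`).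
`chi_kObj`: sum. `chi_iso`: `Linear.homCongr`-type equivalences for isomorphisms `X ≅ X'`, `Y ≅ Y'`
(`(shiftFunctor _ i).mapIso`). `kk_chi_rad`: `exists_kObj_iso`, `chi_iso`, `chi_kObj`,
`MF.chi_rad`.
-/

open CategoryTheory CategoryTheory.Limits MvPolynomial KuMF Pretriangulated

set_option backward.isDefEq.respectTransparency false

noncomputable section

namespace H24.Ku

variable {f : Pol 5} (hf : f.IsHomogeneous 3) [h0 : Fact (f ≠ 0)]

theorem finrank_kObj (E F : MF f) (i : ℤ) :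
    Module.finrank ℂ (kObj hf E ⟶ (kObj hf F)⟦i⟧) = Module.finrank ℂ (MF.HH E F (3 * i)) := by
  let L : MF.Z E F (3 * i) →ₗ[ℂ] (kObj hf E ⟶ (kObj hf F)⟦i⟧) :=
    { toFun := fun α => kNm hf i α.1 α.2
      map_add' := fun a b => kNm_add i a.1 b.1 a.2 b.2
      map_smul' := fun c a => kNm_smul i c a.1 a.2 }
  have hs : Function.Surjective L := fun φ => by
    obtain ⟨α, hα, h⟩ := exists_kNm i φ
    exact ⟨⟨α, hα⟩, h.symm⟩
  have hk : LinearMap.ker L = (MF.B E F (3 * i)).submoduleOf (MF.Z E F (3 * i)) := by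
    ext a
    rw [LinearMap.mem_ker]
    exact kNm_eq_zero_iff i a.1 a.2
  exact ((Submodule.quotEquivOfEq _ _ hk.symm).trans
    (L.quotKerEquivOfSurjective hs)).finrank_eq.symm

theorem chi_kObj (E F : MF f) :
    Pool.Agent.H63.KA.chi (kObj hf E) (kObj hf F) = MF.chi E F := by
  unfold Pool.Agent.H63.KA.chi MF.chi
  exact finsum_congr fun i => by rw [finrank_kObj]

theorem chi_iso {T : Type*} [Category T] [Preadditive T] [Linear ℂ T] [HasShift T ℤ]
    {X X' Y Y' : T} (e : X ≅ X') (e' : Y ≅ Y') :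
    Pool.Agent.H63.KA.chi X Y = Pool.Agent.H63.KA.chi X' Y' := by
  unfold Pool.Agent.H63.KA.chi
  exact finsum_congr fun i => by
    rw [(Linear.homCongr ℂ e ((shiftFunctor T i).mapIso e')).finrank_eq]

theorem kk_chi_rad (hv : VG f) (X Y : KK hf) (h : Pool.Agent.H63.KA.chi X X = 0) :
    Pool.Agent.H63.KA.chi X Y = 0 := by
  obtain ⟨E, ⟨e⟩⟩ := exists_kObj_iso X
  obtain ⟨F, ⟨e'⟩⟩ := exists_kObj_iso Y
  rw [chi_iso e e, chi_kObj] at h
  rw [chi_iso e e', chi_kObj]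
  exact MF.chi_rad hv hf E F h

end H24.Ku
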