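import Pool.Agent.H27.KD.OctGen
import Pool.Agent.H27.Orl.KKDef
import Pool.Agent.H91.MF.ConesDec

/-!
# KUD-25 Gen0: finite direct sums of twists of `kst` are in the class generated by three objects

`genK hf c = kObj hf (sh c kst)`, `c = 0, 1, 2`.
`heq_iso`: `MF.HEq E E'` gives `kObj E ≅ kObj E'` (`k0m_comp`, `k0m_eq_iff`, `k0m_one`).
`sh_shift_iso`: `kObj (sh (c - 3 n) E) ≅ (kObj (sh c E))⟦n⟧`: by `kshIso`/`epsn`: `(kObj F)⟦n⟧` is the
class of `PE (snMF n F)`, and `snMF n (sh c E)` (weights `w + c - 3 n`, matrix `(-1)^n Q`) is isomorphic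
to `sh (c - 3 n) E` (matrix `Q`) by the diagonal matrix `diag((-1)^(n w i))`
(entries of `Q` are nonzero only between weights of different parity; for `n` even take `1`).
`dec_mem`: `Dec E kst` gives for a finite type `T` maps `k0m (i t)`, `k0m (p t)` which make `kObj E` a
biproduct of the `kObj (sh (wt t) kst)`; each is isomorphic to a shift of some `genK c`
(`wt t = c - 3 n` with `c ∈ {0,1,2}`). A finite biproduct of objects of `triangEnvelopeIter 0` (which
is closed under binary products and retracts, `triangEnvelopeIter_zero`) is in it: induction on the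
number of summands, for instance: the class `W₀` is closed under binary biproducts (a biproduct of
retracts of `X`, `Y` is a retract of `X ⊞ Y`) and contains zero objects (retracts of anything);
so it contains every finite biproduct `⨁ t, kObj (sh (wt t) kst)`, and `kObj E` is a retract of it:
`biproduct.lift (fun t => k0m (p t)) ≫ biproduct.desc (fun t => k0m (i t)) = ∑ .. = 𝟙`
(`∑ i t * p t - 1 ∈ B`). (Only the last relation of `Dec` is needed.)
-/

open CategoryTheory CategoryTheory.Limits MvPolynomial KuMF Pretriangulated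
open scoped ZeroObject

set_option backward.isDefEq.respectTransparency false

noncomputable section

namespace H24.Ku

section general

universe v u

variable {C : Type u} [Category.{v} C] [HasZeroObject C] [HasShift C ℤ] [Preadditive C]
  [∀ n : ℤ, (shiftFunctor C n).Additive] [Pretriangulated C]

lemma w0_biprod (P : ObjectProperty C) {X Y : C} [HasBinaryBiproduct X Y]
    (hX : P.triangEnvelopeIter 0 X) (hY : P.triangEnvelopeIter 0 Y) :
    P.triangEnvelopeIter 0 (X ⊞ Y) := by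
  rw [ObjectProperty.triangEnvelopeIter_zero] at hX hY ⊢
  obtain ⟨X', hX', ⟨rX⟩⟩ := hX
  obtain ⟨Y', hY', ⟨rY⟩⟩ := hY
  refine ⟨X' ⨯ Y', ObjectProperty.prop_prod _ X' Y' hX' hY', ⟨?_⟩⟩
  exact
    { i := prod.lift (biprod.fst ≫ rX.i) (biprod.snd ≫ rY.i)
      r := biprod.lift (prod.fst ≫ rX.r) (prod.snd ≫ rY.r)
      retract := by
        apply biprod.hom_ext
        · simp
        · simp }

lemma w0_zero (P : ObjectProperty C) {X Z : C} (hX : P.triangEnvelopeIter 0 X) (hZ : IsZero Z) :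
    P.triangEnvelopeIter 0 Z := by
  rw [ObjectProperty.triangEnvelopeIter_zero] at hX ⊢
  obtain ⟨X', hX', ⟨rX⟩⟩ := hX
  exact ⟨X', hX', ⟨{ i := 0, r := 0, retract := hZ.eq_of_src _ _ }⟩⟩

lemma w0_shift (P : ObjectProperty C) {X Y : C} (hY : P Y) (n : ℤ) (e : X ≅ Y⟦n⟧) :
    P.triangEnvelopeIter 0 X := by
  rw [ObjectProperty.triangEnvelopeIter_zero]
  apply ObjectProperty.le_retractClosure
  apply ObjectProperty.le_limitsClosure
  exact ⟨Y, n, e, hY⟩

lemma w0_sum (P : ObjectProperty C) {X₀ : C} (hX₀ : P.triangEnvelopeIter 0 X₀) {T : Type}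
    (s : Finset T) (X : T → C) (E : C) (a : ∀ t, E ⟶ X t) (b : ∀ t, X t ⟶ E)
    (hX : ∀ t, P.triangEnvelopeIter 0 (X t)) :
    ∃ (Z : C) (i : E ⟶ Z) (p : Z ⟶ E), P.triangEnvelopeIter 0 Z ∧
      i ≫ p = ∑ t ∈ s, a t ≫ b t := by
  classical
  induction s using Finset.induction_on with
  | empty =>
    refine ⟨0, 0, 0, w0_zero P hX₀ (isZero_zero C), ?_⟩
    simp
  | insert t s ht ih =>
    obtain ⟨Z, i, p, hZ, hip⟩ := ih
    refine ⟨X t ⊞ Z, biprod.lift (a t) i, biprod.desc (b t) p, w0_biprod P (hX t) hZ, ?_⟩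
    rw [Finset.sum_insert ht, biprod.lift_desc, hip]

lemma w0_retract (P : ObjectProperty C) {X Y : C} (i : X ⟶ Y) (p : Y ⟶ X)
    (h : i ≫ p = 𝟙 X) (hY : P.triangEnvelopeIter 0 Y) : P.triangEnvelopeIter 0 X := by
  rw [ObjectProperty.triangEnvelopeIter_zero] at hY ⊢
  obtain ⟨Y', hY', ⟨rY⟩⟩ := hY
  exact ⟨Y', hY', ⟨({ i := i, r := p, retract := h } : Retract X Y).trans rY⟩⟩

end general

variable {f : Pol 5} (hf : f.IsHomogeneous 3)

/-- The three generators. -/
def genK (c : Fin 3) : KK hf := kObj hf (MF.sh (c : ℤ) (MF.kst f hf))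

theorem heq_iso (hf0 : f ≠ 0) {E E' : MF f} (h : MF.HEq E E') :
    Nonempty (kObj hf E ≅ kObj hf E') := by
  obtain ⟨U, hU, U', hU', h1, h2⟩ := h
  refine ⟨{ hom := k0m hf U hU, inv := k0m hf U' hU', hom_inv_id := ?_, inv_hom_id := ?_ }⟩
  · rw [k0m_comp, ← k0m_one, k0m_eq_iff hf0]
    exact h1
  · rw [k0m_comp, ← k0m_one, k0m_eq_iff hf0]
    exact h2

lemma even_of_hg {p : Pol 5} {e : ℤ} (hp : Hg p e) (h0 : p ≠ 0) : Even e := by
  obtain ⟨m, hm⟩ := MvPolynomial.support_nonempty.2 h0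
  rw [← hp m hm]
  exact even_two_mul _

lemma sn_heq (E : MF f) (c n : ℤ) :
    MF.HEq (MF.sh (c - 3 * n) E) (snMF n (MF.sh c E)) := by
  have hsq : ∀ z : ℤ, ((z.negOnePow : ℤ) : Pol 5) * ((z.negOnePow : ℤ) : Pol 5) = 1 := by
    intro z
    rcases Int.units_eq_one_or z.negOnePow with h | h <;> simp [h]
  have hg : ∀ (z e : ℤ), e = 0 → Hg (((z.negOnePow : ℤ) : Pol 5)) e := by
    rintro z e rfl
    have h1 : Hg (1 : Pol 5) 0 := Hg.one
    rcases Int.units_eq_one_or z.negOnePow with h | h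
    · rw [h]; simpa using h1
    · rw [h]; simpa using h1.neg
  have hUU : (Matrix.diagonal fun i : E.ι => (((n * E.w i).negOnePow : ℤ) : Pol 5)) *
      (Matrix.diagonal fun i : E.ι => (((n * E.w i).negOnePow : ℤ) : Pol 5)) = 1 := by
    rw [Matrix.diagonal_mul_diagonal, ← Matrix.diagonal_one]
    congr 1
    funext i
    exact hsq _
  refine MF.HEq.of_matrix (E := MF.sh (c - 3 * n) E) (E' := snMF n (MF.sh c E))
    (Matrix.diagonal fun i : E.ι => (((n * E.w i).negOnePow : ℤ) : Pol 5))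
    (Matrix.diagonal fun i : E.ι => (((n * E.w i).negOnePow : ℤ) : Pol 5)) ?_ ?_ ?_ hUU hUU
  · intro i j
    rcases eq_or_ne i j with rfl | h
    · rw [Matrix.diagonal_apply_eq]
      exact hg _ _ (by change E.w i + (c - 3 * n) - (E.w i + c - 3 * n) + 0 = 0; ring)
    · rw [Matrix.diagonal_apply_ne _ h]
      exact Hg.zero _
  · intro i j
    rcases eq_or_ne i j with rfl | h
    · rw [Matrix.diagonal_apply_eq]
      exact hg _ _ (by change E.w i + c - 3 * n - (E.w i + (c - 3 * n)) + 0 = 0; ring)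
    · rw [Matrix.diagonal_apply_ne _ h]
      exact Hg.zero _
  · ext1 i j
    change ((Matrix.diagonal fun i : E.ι => (((n * E.w i).negOnePow : ℤ) : Pol 5)) * E.Q) i j =
      (((n.negOnePow : ℤ) • E.Q) *
        (Matrix.diagonal fun i : E.ι => (((n * E.w i).negOnePow : ℤ) : Pol 5))) i j
    rw [Matrix.diagonal_mul, Matrix.mul_diagonal, Matrix.smul_apply]
    by_cases hQ : E.Q i j = 0
    · rw [hQ]; simp
    · have h1 := even_of_hg (E.hQ i j) hQ
      have h2 : (n * E.w i).negOnePow = n.negOnePow * (n * E.w j).negOnePow := by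
        rw [← Int.negOnePow_add, Int.negOnePow_eq_iff]
        obtain ⟨r, hr⟩ := h1
        have h3 : n * E.w i - (n + n * E.w j) = (n * (1 - r)) + (n * (1 - r)) := by
          have h4 : E.w i = E.w j + 3 - (r + r) := by linarith
          rw [h4]; ring
        rw [h3]
        exact ⟨_, rfl⟩
      rw [h2]
      push_cast
      rw [zsmul_eq_mul]
      ring

variable [h0 : Fact (f ≠ 0)]

theorem sh_shift_iso (E : MF f) (c n : ℤ) :
    Nonempty (kObj hf (MF.sh (c - 3 * n) E) ≅ (kObj hf (MF.sh c E))⟦n⟧) := by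
  obtain ⟨e₁⟩ := heq_iso hf h0.out (sn_heq E c n)
  have e₂ : kObj hf (snMF n (MF.sh c E)) ≅ (kObj hf (MF.sh c E))⟦n⟧ :=
    (kProp hf).isoMk ((kq hf).mapIso (epsn hf n (MF.sh c E)) ≪≫ kshIso hf n (MF.sh c E))
  exact ⟨e₁ ≪≫ e₂⟩

lemma k0m_sum {E F : MF f} {T : Type} (s : Finset T) (α : T → Matrix F.ι E.ι (Pol 5))
    (hα : ∀ t, α t ∈ MF.Z E F 0) :
    ∑ t ∈ s, k0m hf (α t) (hα t) = k0m hf (∑ t ∈ s, α t) (Submodule.sum_mem _ fun t _ => hα t) := by
  classical
  induction s using Finset.induction_on with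
  | empty =>
    rw [Finset.sum_empty]
    symm
    refine (k0m_eq_zero_iff h0.out _ _).2 ?_
    rw [Finset.sum_empty]
    exact Submodule.zero_mem _
  | insert t s ht ih =>
    rw [Finset.sum_insert ht, ih, ← k0m_add]
    congr 1
    rw [Finset.sum_insert ht]

theorem dec_mem (E : MF f) (h : MF.Dec E (MF.kst f hf)) :
    (ObjectProperty.ofObj (genK hf)).triangEnvelopeIter 0 (kObj hf E) := by
  obtain ⟨T, _, wt, i, p, hi, hp, -, -, hsum⟩ := h
  have hgen : ∀ c : ℤ, (ObjectProperty.ofObj (genK hf)).triangEnvelopeIter 0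
      (kObj hf (MF.sh c (MF.kst f hf))) := by
    intro c
    obtain ⟨e⟩ := sh_shift_iso hf (MF.kst f hf) (c % 3) (-(c / 3))
    have h1 : c % 3 - 3 * -(c / 3) = c := by
      have := Int.emod_add_mul_ediv c 3
      linarith
    rw [h1] at e
    have h2 : 0 ≤ c % 3 := Int.emod_nonneg _ (by norm_num)
    have h3 : c % 3 < 3 := Int.emod_lt_of_pos _ (by norm_num)
    obtain ⟨m, hm⟩ := Int.eq_ofNat_of_zero_le h2
    have h4 : m < 3 := by omega
    refine w0_shift _ (Y := genK hf ⟨m, h4⟩) (ObjectProperty.ofObj_apply _ _) (-(c / 3)) ?_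
    refine e ≪≫ eqToIso ?_
    rw [hm]
    rfl
  obtain ⟨Z, a, b, hZ, hab⟩ := w0_sum _ (hgen 0) Finset.univ
    (fun t => kObj hf (MF.sh (wt t) (MF.kst f hf))) (kObj hf E)
    (fun t => k0m hf (E := E) (F := MF.sh (wt t) (MF.kst f hf)) (p t) (hp t))
    (fun t => k0m hf (E := MF.sh (wt t) (MF.kst f hf)) (F := E) (i t) (hi t))
    (fun t => hgen (wt t))
  refine w0_retract _ a b ?_ hZ
  rw [hab]
  have hip : ∀ t, i t * p t ∈ MF.Z E E 0 := fun t => by
    have := MF.mul_mem_Z (hi t) (hp t)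
    rwa [add_zero] at this
  have h1 : ∀ t, k0m hf (E := E) (F := MF.sh (wt t) (MF.kst f hf)) (p t) (hp t) ≫
      k0m hf (E := MF.sh (wt t) (MF.kst f hf)) (F := E) (i t) (hi t) =
      k0m hf (i t * p t) (hip t) := fun t => k0m_comp _ _ _ _
  rw [Finset.sum_congr rfl fun t _ => h1 t, k0m_sum _ _ _ hip, ← k0m_one, k0m_eq_iff h0.out]
  exact hsum

end H24.Ku
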