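import Pool.Agent.H27.KD.Gen0

/-!
# KUD-26 Gen1: cone triangles of multiplications

(1) `conesN_sh_heq`: `HEq (conesN (sh c E) m) (sh c (conesN E m))` (same data: induction on `m` with
`MF.SD`, `SD.cone`, `SD.heq`; `(sh c F).cone x e` and `sh c (F.cone x e)` have the same data).
(2) `cone_triangle_x`: for every `F : MF f`, `a` of weight `e + 3` the matrix `a • 1` is in
`Z (sh (e+3) F) F 0`, and `kObj (coneMF (a • 1)) ≅ kObj (F.cone a e)`: same data with the two summands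
swapped (`Equiv.sumComm`; `coneMF`: weights `(w + (e+3) - 3, w)`, matrix `[[-Q,0],[a,Q]]`; `cone`: weights
`(w, w + e)`, matrix `[[Q,a],[0,-Q]]`); so `exists_cone_triangle` gives a distinguished triangle
`kObj (sh (e+3) F) ⟶(a) kObj F ⟶ kObj (F.cone a e) ⟶`.
-/

open CategoryTheory CategoryTheory.Limits MvPolynomial KuMF Pretriangulated

set_option backward.isDefEq.respectTransparency false

noncomputable section

namespace H24.Ku

variable {f : Pol 5} (hf : f.IsHomogeneous 3) [h0 : Fact (f ≠ 0)]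

omit h0 in
/-- The cone of a twist is the twist of the cone. -/
lemma Gen1_sh_cone (F : MF f) (c : ℤ) (a : Pol 5) (e : ℤ) (ha : Hg a (e + 3)) :
    MF.SD ((MF.sh c F).cone a e ha) (MF.sh c (F.cone a e ha)) := by
  refine ⟨Equiv.refl _, ?_, fun _ _ => rfl⟩
  rintro (i | i)
  · rfl
  · change F.w i + e + c = F.w i + c + e
    ring

omit h0 in
lemma Gen1_conesN_sh (E : MF f) (c : ℤ) (m : ℕ) :
    MF.SD (MF.conesN (MF.sh c E) m) (MF.sh c (MF.conesN E m)) := by
  induction m with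
  | zero => exact MF.SD.refl _
  | succ m ih => exact (ih.cone _ _ _).trans (Gen1_sh_cone _ _ _ _ _)

theorem conesN_sh_heq (E : MF f) (c : ℤ) (m : ℕ) :
    MF.HEq (MF.conesN (MF.sh c E) m) (MF.sh c (MF.conesN E m)) :=
  (Gen1_conesN_sh E c m).heq

omit h0 in
lemma Gen1_mem_Z (F : MF f) (a : Pol 5) (e : ℤ) (ha : Hg a (e + 3)) :
    (a • (1 : Matrix F.ι F.ι (Pol 5))) ∈ MF.Z (MF.sh (e + 3) F) F 0 := by
  refine mem_Z_zero_iff.2 ⟨fun i j => ?_, ?_⟩
  · rcases eq_or_ne i j with rfl | h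
    · rw [Matrix.smul_apply, Matrix.one_apply_eq, smul_eq_mul, mul_one]
      refine ha.of_eq ?_
      change e + 3 = F.w i + (e + 3) - F.w i
      ring
    · rw [Matrix.smul_apply, Matrix.one_apply_ne h, smul_zero]
      exact Hg.zero _
  · change F.Q * (a • (1 : Matrix F.ι F.ι (Pol 5))) = a • (1 : Matrix F.ι F.ι (Pol 5)) * F.Q
    rw [Matrix.mul_smul, Matrix.smul_mul, Matrix.mul_one, Matrix.one_mul]

omit h0 in
lemma Gen1_cone_SD (F : MF f) (a : Pol 5) (e : ℤ) (ha : Hg a (e + 3)) :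
    MF.SD (coneMF (E := MF.sh (e + 3) F) (a • (1 : Matrix F.ι F.ι (Pol 5)))
      (Gen1_mem_Z F a e ha)) (F.cone a e ha) := by
  refine ⟨Equiv.sumComm F.ι F.ι, ?_, ?_⟩
  · rintro (i | i)
    · change F.w i + e = F.w i + (e + 3) - 3
      ring
    · rfl
  · rintro (i | i) (j | j)
    · rfl
    · change ((0 : Pol 5) • (1 : Matrix F.ι F.ι (Pol 5))) i j = 0
      rw [zero_smul]
      rfl
    · rfl
    · rfl

section

universe v u

variable {C : Type u} [Category.{v} C] [HasZeroObject C] [HasShift C ℤ] [Preadditive C]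
  [∀ n : ℤ, (shiftFunctor C n).Additive] [Pretriangulated C]

/-- Replace the third object of a distinguished triangle by an isomorphic one. -/
lemma Gen1_triangle_iso {A B Z Z' : C} {u : A ⟶ B} {g : B ⟶ Z} {h : Z ⟶ A⟦(1 : ℤ)⟧}
    (hT : Triangle.mk u g h ∈ distTriang C) (i : Z ≅ Z') :
    Triangle.mk u (g ≫ i.hom) (i.inv ≫ h) ∈ distTriang C := by
  refine isomorphic_distinguished _ hT _
    (Triangle.isoMk _ _ (Iso.refl _) (Iso.refl _) i.symm ?_ ?_ ?_)
  · simp
  · simp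
  · simp

end

theorem cone_triangle_x (F : MF f) (a : Pol 5) (e : ℤ) (ha : Hg a (e + 3)) :
    ∃ (hα : (a • (1 : Matrix F.ι F.ι (Pol 5))) ∈ MF.Z (MF.sh (e + 3) F) F 0)
      (g : kObj hf F ⟶ kObj hf (F.cone a e ha))
      (h : kObj hf (F.cone a e ha) ⟶ (kObj hf (MF.sh (e + 3) F))⟦(1 : ℤ)⟧),
      Triangle.mk (k0m hf (E := MF.sh (e + 3) F) (a • (1 : Matrix F.ι F.ι (Pol 5))) hα) g h ∈
        distTriang (KK hf) := by
  obtain ⟨i⟩ := heq_iso hf h0.out (Gen1_cone_SD F a e ha).heq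
  obtain ⟨g, h, hT⟩ := exists_cone_triangle (hf := hf) (E := MF.sh (e + 3) F)
    (a • (1 : Matrix F.ι F.ι (Pol 5))) (Gen1_mem_Z F a e ha)
  exact ⟨Gen1_mem_Z F a e ha, g ≫ i.hom, i.inv ≫ h, Gen1_triangle_iso hT i⟩

end H24.Ku
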