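import Pool.Agent.H27.KD.Gen1
import Pool.Agent.H91.MF.Kap

/-!
# KUD-27 Gen2: one step of the generation

Write `W n X` for `(ofObj (genK hf)).triangEnvelopeIter n X`, `F = conesN E m`, `x = xN ℂ 6 m = X m`
(`m < 6`). `α_j : kObj (sh (2 (j+1)) F) ⟶ kObj (sh (2 j) F)`, `j = 0, 1, 2`, given by the matrix `x • 1`
(in `Z (sh (2 (j+1)) F) (sh (2 j) F) 0`); by `cone_triangle_x` for `sh (2 j) F`, `e = -1` (and the
identification of `sh (e + 3) (sh (2 j) F)` with `sh (2 (j+1)) F`: the same data, an isomorphism given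
by the identity matrix, or use `sh 2 (sh 2 (sh 2 F))` throughout) its cone is
`kObj ((sh (2 j) F).cone x (-1))`. It is isomorphic (`heq_iso`) to `kObj (conesN (sh (2 j) E) (m+1))`:
`conesN (sh (2j) E) (m+1) = (conesN (sh (2j) E) m).cone x (-1)`, `conesN_sh_heq`, and `HEq` is compatible
with cones (`MF.HEq.cone`, see `HEq.conesN`). So the cones of the `α_j` are in `W n` by hypothesis. The
composition `α_2 ≫ α_1 ≫ α_0` is given by `x^3` (`k0m_comp`), its cone is `kObj (F.cone (x^3) 3)`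
(`cone_triangle_x` with `e = 3`), so it is in `W (n + (n + (n + 1) + 1))` by `cone_comp_mem` twice; then
`ObjectProperty.monotone'_triangEnvelopeIter`. `kObj F` is a retract of `kObj (F.cone (x^3) 3)`
(`MF.retract_cube` with `i = ⟨m, hm⟩`, `k0m_comp`, `k0m_one`), `retract_mem`.
-/

open CategoryTheory CategoryTheory.Limits MvPolynomial KuMF Pretriangulated

set_option backward.isDefEq.respectTransparency false

noncomputable section

namespace H24.Ku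

variable {f : Pol 5} (hf : f.IsHomogeneous 3) [h0 : Fact (f ≠ 0)]

/-- Shorthand for the class. -/
abbrev WK (n : ℕ) : ObjectProperty (KK hf) :=
  (ObjectProperty.ofObj (genK hf)).triangEnvelopeIter n

variable {hf}

omit h0 in
/-- An isomorphism of `KK hf` from mutually inverse cocycles. -/
lemma iso_of_one {E E' : MF f} (U : Matrix E'.ι E.ι (Pol 5)) (hU : U ∈ MF.Z E E' 0)
    (U' : Matrix E.ι E'.ι (Pol 5)) (hU' : U' ∈ MF.Z E' E 0) (h1 : U' * U = 1) (h2 : U * U' = 1) :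
    ∃ e : kObj hf E ≅ kObj hf E', e.hom = k0m hf U hU := by
  refine ⟨⟨k0m hf U hU, k0m hf U' hU', ?_, ?_⟩, rfl⟩
  · rw [k0m_comp, ← k0m_one]
    congr 1
  · rw [k0m_comp, ← k0m_one]
    congr 1

/-- the class is closed under isomorphisms -/
lemma wk_iso {n : ℕ} {X Y : KK hf} (e : X ≅ Y) (h : WK hf n X) : WK hf n Y :=
  retract_mem _ _ e.inv e.hom e.inv_hom_id h

omit h0 in
lemma scal_mem {F : MF f} (c d : ℤ) (a : Pol 5) (e : ℤ) (ha : Hg a e) (h : c = d + e) :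
    (a • (1 : Matrix F.ι F.ι (Pol 5))) ∈ MF.Z (MF.sh c F) (MF.sh d F) 0 := by
  rw [mem_Z_zero_iff]
  constructor
  · intro i j
    change Hg ((a • (1 : Matrix F.ι F.ι (Pol 5))) i j) (F.w j + c - (F.w i + d))
    rw [Matrix.smul_apply, smul_eq_mul]
    exact (ha.mul (one_hg F.w i j)).of_eq (by rw [h]; ring)
  · change F.Q * (a • (1 : Matrix F.ι F.ι (Pol 5))) = (a • (1 : Matrix F.ι F.ι (Pol 5))) * F.Q
    rw [Matrix.mul_smul, Matrix.smul_mul, Matrix.mul_one, Matrix.one_mul]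

section general

universe v u

variable {C : Type u} [Category.{v} C] [HasZeroObject C] [HasShift C ℤ] [Preadditive C]
  [∀ n : ℤ, (shiftFunctor C n).Additive] [Pretriangulated C]

lemma tri_source_iso {A A' B Z : C} (φ : A' ⟶ B) (u : B ⟶ Z) (v : Z ⟶ A'⟦(1 : ℤ)⟧)
    (hT : Triangle.mk φ u v ∈ distTriang C) (e : A ≅ A') :
    Triangle.mk (e.hom ≫ φ) u (v ≫ e.inv⟦(1 : ℤ)⟧') ∈ distTriang C := by
  refine isomorphic_distinguished _ hT _ ?_
  refine Triangle.isoMk _ _ e (Iso.refl _) (Iso.refl _) ?_ ?_ ?_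
  · change (e.hom ≫ φ) ≫ 𝟙 _ = e.hom ≫ φ
    rw [Category.comp_id]
  · change u ≫ 𝟙 _ = 𝟙 _ ≫ u
    rw [Category.comp_id, Category.id_comp]
  · change (v ≫ e.inv⟦(1 : ℤ)⟧') ≫ e.hom⟦(1 : ℤ)⟧' = 𝟙 _ ≫ v
    rw [Category.assoc, ← Functor.map_comp, Iso.inv_hom_id, CategoryTheory.Functor.map_id,
      Category.comp_id, Category.id_comp]

end general

omit h0 in
lemma k0m_congr {E F : MF f} {α β : Matrix F.ι E.ι (Pol 5)} (h : α = β) (hα : α ∈ MF.Z E F 0)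
    (hβ : β ∈ MF.Z E F 0) : k0m hf α hα = k0m hf β hβ := by
  subst h; rfl

omit h0 in
lemma one_sh_mem (F : MF f) (b c d : ℤ) (h : c = d + b) :
    (1 : Matrix F.ι F.ι (Pol 5)) ∈ MF.Z (MF.sh c F) (MF.sh b (MF.sh d F)) 0 := by
  rw [mem_Z_zero_iff]
  constructor
  · intro i j
    exact (one_hg F.w i j).of_eq (by
      change F.w j - F.w i = F.w j + c - (F.w i + d + b)
      rw [h]; ring)
  · exact (Matrix.mul_one _).trans (Matrix.one_mul _).symm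

omit h0 in
lemma one_sh_mem' (F : MF f) (b c d : ℤ) (h : c = d + b) :
    (1 : Matrix F.ι F.ι (Pol 5)) ∈ MF.Z (MF.sh b (MF.sh d F)) (MF.sh c F) 0 := by
  rw [mem_Z_zero_iff]
  constructor
  · intro i j
    exact (one_hg F.w i j).of_eq (by
      change F.w j - F.w i = F.w j + d + b - (F.w i + c)
      rw [h]; ring)
  · exact (Matrix.mul_one _).trans (Matrix.one_mul _).symm

omit h0 in
lemma sh_sh_iso (F : MF f) (b c d : ℤ) (h : c = d + b) :
    ∃ e : kObj hf (MF.sh c F) ≅ kObj hf (MF.sh b (MF.sh d F)),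
      e.hom = k0m hf (E := MF.sh c F) (F := MF.sh b (MF.sh d F)) (1 : Matrix F.ι F.ι (Pol 5))
        (one_sh_mem F b c d h) :=
  iso_of_one (hf := hf) (E := MF.sh c F) (E' := MF.sh b (MF.sh d F))
    (1 : Matrix F.ι F.ι (Pol 5)) (one_sh_mem F b c d h) (1 : Matrix F.ι F.ι (Pol 5))
    (one_sh_mem' F b c d h)
    (Matrix.mul_one (1 : Matrix F.ι F.ι (Pol 5))) (Matrix.mul_one (1 : Matrix F.ι F.ι (Pol 5)))

lemma tri_x (F : MF f) (a : Pol 5) (e : ℤ) (ha : Hg a (e + 3)) (c d : ℤ) (h : c = d + (e + 3)) :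
    ∃ (u : kObj hf (MF.sh d F) ⟶ kObj hf ((MF.sh d F).cone a e ha))
      (v : kObj hf ((MF.sh d F).cone a e ha) ⟶ (kObj hf (MF.sh c F))⟦(1 : ℤ)⟧),
      Triangle.mk (k0m hf (E := MF.sh c F) (F := MF.sh d F)
        (a • (1 : Matrix F.ι F.ι (Pol 5))) (scal_mem c d a _ ha h)) u v ∈ distTriang (KK hf) := by
  obtain ⟨hα, u, v, hT⟩ := cone_triangle_x hf (MF.sh d F) a e ha
  obtain ⟨e0, he0⟩ := sh_sh_iso (hf := hf) F (e + 3) c d h
  have h1 := tri_source_iso _ u v hT e0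
  rw [he0, k0m_comp] at h1
  refine ⟨u, v ≫ e0.inv⟦(1 : ℤ)⟧', ?_⟩
  have h2 := k0m_congr (hf := hf) (E := MF.sh c F) (F := MF.sh d F)
    (show (a • (1 : Matrix F.ι F.ι (Pol 5))) * (1 : Matrix F.ι F.ι (Pol 5)) =
      a • (1 : Matrix F.ι F.ι (Pol 5)) from Matrix.mul_one _)
    (by rw [Matrix.mul_one]; exact scal_mem c d a _ ha h) (scal_mem c d a _ ha h)
  rw [← h2]
  exact h1

/-- The cone of `x ^ 3`. -/
lemma cube_mem (n : ℕ) (F : MF f) (x : Pol 5) (hx : Hg x (-1 + 3))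
    (h : ∀ c : ℤ, WK hf n (kObj hf ((MF.sh c F).cone x (-1) hx))) (hx3 : Hg (x ^ 3) (3 + 3)) :
    WK hf (3 * n + 2) (kObj hf (F.cone (x ^ 3) 3 hx3)) := by
  obtain ⟨u1, v1, h1⟩ := tri_x (hf := hf) F x (-1) hx 2 0 (by norm_num)
  obtain ⟨u2, v2, h2⟩ := tri_x (hf := hf) F x (-1) hx 4 2 (by norm_num)
  obtain ⟨u3, v3, h3⟩ := tri_x (hf := hf) F x (-1) hx 6 4 (by norm_num)
  obtain ⟨u, v, hT⟩ := tri_x (hf := hf) F (x ^ 3) 3 hx3 6 0 (by norm_num)
  obtain ⟨Z, u', v', hZ⟩ := distinguished_cocone_triangle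
    (k0m hf (E := MF.sh 6 F) (F := MF.sh 4 F) (x • (1 : Matrix F.ι F.ι (Pol 5)))
      (scal_mem 6 4 x _ hx (by norm_num)) ≫
    k0m hf (E := MF.sh 4 F) (F := MF.sh 2 F) (x • (1 : Matrix F.ι F.ι (Pol 5)))
      (scal_mem 4 2 x _ hx (by norm_num)))
  have hZm : WK hf (n + (n + 1)) Z := cone_comp_mem _ rfl h3 h2 hZ (h 4) (h 2)
  have hcomp : (k0m hf (E := MF.sh 6 F) (F := MF.sh 4 F) (x • (1 : Matrix F.ι F.ι (Pol 5)))
      (scal_mem 6 4 x _ hx (by norm_num)) ≫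
    k0m hf (E := MF.sh 4 F) (F := MF.sh 2 F) (x • (1 : Matrix F.ι F.ι (Pol 5)))
      (scal_mem 4 2 x _ hx (by norm_num))) ≫
    k0m hf (E := MF.sh 2 F) (F := MF.sh 0 F) (x • (1 : Matrix F.ι F.ι (Pol 5)))
      (scal_mem 2 0 x _ hx (by norm_num)) =
    k0m hf (E := MF.sh 6 F) (F := MF.sh 0 F) (x ^ 3 • (1 : Matrix F.ι F.ι (Pol 5)))
      (scal_mem 6 0 (x ^ 3) _ hx3 (by norm_num)) := by
    rw [k0m_comp, k0m_comp]
    congr 1
    rw [Matrix.smul_mul, Matrix.smul_mul, Matrix.one_mul, Matrix.one_mul, smul_smul, smul_smul]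
    congr 1
    ring
  have h5 := cone_comp_mem (ObjectProperty.ofObj (genK hf)) hcomp hZ h1 hT hZm (h 0)
  have h6 : MF.HEq ((MF.sh 0 F).cone (x ^ 3) 3 hx3) (F.cone (x ^ 3) 3 hx3) := by
    have h7 : MF.HEq (MF.sh 0 F) F :=
      MF.HEq.of_equiv (E := MF.sh 0 F) (E' := F) (Equiv.refl F.ι)
        (fun i => (add_zero (F.w i)).symm) (fun i j => rfl)
    exact h7.cone _ _ _
  obtain ⟨e⟩ := heq_iso hf h0.out h6
  have h7 := wk_iso e h5
  exact ObjectProperty.monotone'_triangEnvelopeIter (ObjectProperty.ofObj (genK hf))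
    (show n + (n + 1) + (n + 1) ≤ 3 * n + 2 by omega) _ h7

variable (hf)

theorem gen_step (hv : VG f) (n m : ℕ) (hm : m < 6)
    (h : ∀ E : MF f, (ObjectProperty.ofObj (genK hf)).triangEnvelopeIter n
      (kObj hf (MF.conesN E (m + 1)))) (E : MF f) :
    (ObjectProperty.ofObj (genK hf)).triangEnvelopeIter (3 * n + 2) (kObj hf (MF.conesN E m)) := by
  have hxm : (X ⟨m, hm⟩ : Pol 5) = xN ℂ 6 m := by
    rw [xN, dif_pos hm]
  have hx3 : Hg ((xN ℂ 6 m) ^ 3) (3 + 3) := by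
    have h1 := ((xN_Hg (k := ℂ) (n := 6) m).mul (xN_Hg m)).mul (xN_Hg m)
    rw [show (xN ℂ 6 m) ^ 3 = xN ℂ 6 m * xN ℂ 6 m * xN ℂ 6 m by ring]
    exact h1.of_eq (by norm_num)
  have h1 := cube_mem (hf := hf) n (MF.conesN E m) (xN ℂ 6 m) (xN_Hg m) (fun c => by
    have h2 := h (MF.sh c E)
    have h3 : MF.HEq (MF.conesN (MF.sh c E) (m + 1))
        ((MF.sh c (MF.conesN E m)).cone (xN ℂ 6 m) (-1) (xN_Hg m)) :=
      (conesN_sh_heq E c m).cone _ _ _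
    obtain ⟨e⟩ := heq_iso hf h0.out h3
    exact wk_iso e h2) hx3
  obtain ⟨j, hj, p, hp, hpj⟩ := MF.retract_cube hv hf (MF.conesN E m) ⟨m, hm⟩
    (by rw [hxm]; exact hx3)
  have h4 : MF.HEq ((MF.conesN E m).cone (X ⟨m, hm⟩ ^ 3) 3 (by rw [hxm]; exact hx3))
      ((MF.conesN E m).cone ((xN ℂ 6 m) ^ 3) 3 hx3) := by
    simp only [hxm]
    exact MF.HEq.refl _
  obtain ⟨e⟩ := heq_iso hf h0.out h4
  refine retract_mem _ _ (k0m hf j hj) (k0m hf p hp) ?_ (wk_iso e.symm h1)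
  rw [k0m_comp, ← k0m_one]
  congr 1

end H24.Ku
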