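import Pool.Agent.H27.Orl.KKDef
import Pool.Agent.H91.MF.Idem2

/-!
# KUD-21 Idem: `KK hf` is idempotent complete

`(X, p)`: `X ≅ kObj E` (`exists_kObj_iso`), the transported idempotent is `k0m hf e he`
(`exists_k0m`), `e * e - e ∈ MF.B E E 0` (`k0m_comp`, `k0m_eq_iff`). `MF.split_idem` gives
`F`, `a ∈ Z E F 0`, `b ∈ Z F E 0`, `a * b = 1`, `b * a - e ∈ B E E 0`. So `k0m b ≫ k0m a = k0m (a * b) = 𝟙`
(`k0m_one`) and `k0m a ≫ k0m b = k0m (b * a) = k0m e` (`k0m_eq_iff`).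
-/

open CategoryTheory CategoryTheory.Limits MvPolynomial KuMF Pretriangulated

set_option backward.isDefEq.respectTransparency false

noncomputable section

namespace H24.Ku

variable {f : Pol 5} (hf : f.IsHomogeneous 3)

theorem kk_isIdempotentComplete (hf0 : f ≠ 0) : IsIdempotentComplete (KK hf) := by
  refine ⟨fun X p hp => ?_⟩
  obtain ⟨E, ⟨φ⟩⟩ := exists_kObj_iso X
  obtain ⟨e, he, hpe⟩ := exists_k0m hf0 (φ.inv ≫ p ≫ φ.hom)
  have h1 : k0m hf e he ≫ k0m hf e he = k0m hf e he := by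
    rw [← hpe, Category.assoc, Category.assoc, Iso.hom_inv_id_assoc, reassoc_of% hp]
  rw [k0m_comp, k0m_eq_iff hf0] at h1
  obtain ⟨F, a, ha, b, hb, hab, hba⟩ := MF.split_idem he h1
  have h2 : k0m hf b hb ≫ k0m hf a ha = 𝟙 _ := by
    rw [k0m_comp, ← k0m_one]
    congr 1
  have h3 : k0m hf a ha ≫ k0m hf b hb = k0m hf e he := by
    rw [k0m_comp, k0m_eq_iff hf0]
    exact hba
  refine ⟨kObj hf F, k0m hf b hb ≫ φ.inv, φ.hom ≫ k0m hf a ha, ?_, ?_⟩
  · rw [Category.assoc, Iso.inv_hom_id_assoc, h2]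
  · rw [Category.assoc, reassoc_of% h3, ← hpe, Category.assoc, Category.assoc, Iso.hom_inv_id,
      Category.comp_id, Iso.hom_inv_id_assoc]

end H24.Ku
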