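import Pool.Agent.H27.Orl.KKDef
import Pool.Agent.H91.MF.Kap
import Pool.Agent.H63.KA.Defs

/-!
# KUD-23 Trace: the cyclic trace of degree `2` on `KK hf`

(1) `tau E : (kObj E ⟶ (kObj E)⟦2⟧) →ₗ[ℂ] ℂ`, `tau E (kNm hf 2 α hα) = MF.kap hv hf E α`: well
defined by `exists_kNm`, `kNm_eq_zero_iff`, `MF.kap_B` (note `3 * 2 = 6`), linear by `kNm_add`,
`kNm_smul` (choose a preimage and use the formula; or factor through the quotient).
(2) for `β ∈ Z F E 0`, `γ ∈ Z E F 6`: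
`tau E (kNm 2 γ ≫ (k0m β)⟦2⟧') = kap E (β * γ) = kap F (γ * β) = tau F (k0m β ≫ kNm 2 γ)`
(`kNm_comp_shift`, `k0m_comp_kNm`, `MF.kap_swap` with `a = 6`, `b = 0`; the sign is `+1`). So `tau` is cyclic
on the objects `kObj E` (all morphisms are of this form: `exists_k0m`, `exists_kNm`).
(3) for every `X : KK hf` choose `E_X` and `e_X : X ≅ kObj E_X` (`exists_kObj_iso`), and put
`tr X φ = tau E_X (e_X.inv ≫ φ ≫ e_X.hom⟦2⟧')`. Cyclicity for `h : N ⟶ M`, `k : M ⟶ N⟦2⟧` : apply (2) to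
`e_N.inv ≫ h ≫ e_M.hom` and `e_M.inv ≫ k ≫ e_N.hom⟦2⟧'`.
(4) `kkTr_kObj`: cyclicity for the isomorphism `e_X : kObj E ≅ kObj E_X` gives
`tau E_X (e.inv ≫ φ ≫ e.hom⟦2⟧') = tau E φ`. (5) `kkTr_ne` from `MF.kap_ne`.
-/

open CategoryTheory CategoryTheory.Limits MvPolynomial KuMF Pretriangulated

set_option backward.isDefEq.respectTransparency false

noncomputable section

namespace H24.Ku

variable {f : Pol 5} (hf : f.IsHomogeneous 3) [h0 : Fact (f ≠ 0)]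

private lemma kap_eq_of_kNm_eq (hv : VG f) (E : MF f) (α β : Matrix E.ι E.ι (Pol 5))
    (hα : α ∈ MF.Z E E (3 * 2)) (hβ : β ∈ MF.Z E E (3 * 2))
    (h : kNm hf 2 α hα = kNm hf 2 β hβ) : MF.kap hv hf E α = MF.kap hv hf E β := by
  have h1 : kNm hf 2 (α - β) (Submodule.sub_mem _ hα hβ) = 0 := by
    have h2 := kNm_add (hf := hf) 2 (α - β) β (Submodule.sub_mem _ hα hβ) hβ
    have h3 : kNm hf 2 (α - β + β) (Submodule.add_mem _ (Submodule.sub_mem _ hα hβ) hβ) =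
        kNm hf 2 α hα := by
      congr 1
      abel
    rw [h3, h] at h2
    exact (right_eq_add.mp h2)
  rw [kNm_eq_zero_iff] at h1
  have h4 := MF.kap_B hv hf E h1
  rw [map_sub, sub_eq_zero] at h4
  exact h4

/-- The trace on the objects `kObj E`. -/
private def tau (hv : VG f) (E : MF f) :
    (kObj hf E ⟶ (kObj hf E)⟦(2 : ℤ)⟧) →ₗ[ℂ] ℂ where
  toFun φ := MF.kap hv hf E (exists_kNm 2 φ).choose
  map_add' φ ψ := by
    obtain ⟨hα, hφ⟩ := (exists_kNm 2 φ).choose_spec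
    obtain ⟨hβ, hψ⟩ := (exists_kNm 2 ψ).choose_spec
    obtain ⟨hγ, hs⟩ := (exists_kNm 2 (φ + ψ)).choose_spec
    rw [← map_add]
    apply kap_eq_of_kNm_eq hf hv E _ _ hγ (Submodule.add_mem _ hα hβ)
    rw [← hs, kNm_add 2 _ _ hα hβ, ← hφ, ← hψ]
  map_smul' c φ := by
    obtain ⟨hα, hφ⟩ := (exists_kNm 2 φ).choose_spec
    obtain ⟨hγ, hs⟩ := (exists_kNm 2 (c • φ)).choose_spec
    rw [RingHom.id_apply, ← map_smul]
    apply kap_eq_of_kNm_eq hf hv E _ _ hγ (Submodule.smul_mem _ c hα)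
    rw [← hs, kNm_smul 2 c _ hα, ← hφ]

private lemma tau_kNm (hv : VG f) (E : MF f) (α : Matrix E.ι E.ι (Pol 5))
    (hα : α ∈ MF.Z E E (3 * 2)) : tau hf hv E (kNm hf 2 α hα) = MF.kap hv hf E α := by
  obtain ⟨hβ, h⟩ := (exists_kNm 2 (kNm hf 2 α hα)).choose_spec
  exact kap_eq_of_kNm_eq hf hv E _ _ hβ hα h.symm

private lemma tau_cyc (hv : VG f) {E F : MF f} (h : kObj hf F ⟶ kObj hf E)
    (k : kObj hf E ⟶ (kObj hf F)⟦(2 : ℤ)⟧) :
    tau hf hv E (k ≫ h⟦(2 : ℤ)⟧') = tau hf hv F (h ≫ k) := by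
  obtain ⟨β, hβ, rfl⟩ := exists_k0m h0.out h
  obtain ⟨γ, hγ, rfl⟩ := exists_kNm 2 k
  rw [kNm_comp_shift, k0m_comp_kNm, tau_kNm, tau_kNm]
  have := MF.kap_swap hv hf (a := 6) (b := 0) hγ hβ (by norm_num)
  rw [this]
  have h6 : ((6 : ℤ).negOnePow : ℤ) = 1 := by decide
  rw [h6, one_smul]

/-- The chosen matrix factorization. -/
private def chE (X : KK hf) : MF f := (exists_kObj_iso X).choose

/-- The chosen isomorphism. -/
private def chI (X : KK hf) : X ≅ kObj hf (chE hf X) := (exists_kObj_iso X).choose_spec.some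

/-- The cyclic trace. -/
private def kkTr (hv : VG f) : Pool.Agent.H63.KA.CycTrace (KK hf) where
  tr X := (tau hf hv (chE hf X)).comp
    { toFun := fun φ => (chI hf X).inv ≫ φ ≫ (chI hf X).hom⟦(2 : ℤ)⟧'
      map_add' := fun φ ψ => by
        rw [Preadditive.add_comp, Preadditive.comp_add]
      map_smul' := fun c φ => by
        rw [Linear.smul_comp, Linear.comp_smul, RingHom.id_apply] }
  cyc := by
    intro M N h k
    have := tau_cyc hf hv ((chI hf N).inv ≫ h ≫ (chI hf M).hom)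
      ((chI hf M).inv ≫ k ≫ (chI hf N).hom⟦(2 : ℤ)⟧')
    change tau hf hv (chE hf M) ((chI hf M).inv ≫ (k ≫ h⟦(2 : ℤ)⟧') ≫
      (chI hf M).hom⟦(2 : ℤ)⟧') = tau hf hv (chE hf N) ((chI hf N).inv ≫ (h ≫ k) ≫
      (chI hf N).hom⟦(2 : ℤ)⟧')
    convert this using 2
    · simp only [Functor.map_comp, Category.assoc]
      congr 2
      rw [← Functor.map_comp_assoc (shiftFunctor (KK hf) (2 : ℤ)), Iso.hom_inv_id,
        CategoryTheory.Functor.map_id, Category.id_comp]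
    · simp only [Category.assoc, Iso.hom_inv_id_assoc]

private lemma kkTr_kObj (hv : VG f) (E : MF f) (φ : kObj hf E ⟶ (kObj hf E)⟦(2 : ℤ)⟧) :
    (kkTr hf hv).tr (kObj hf E) φ = tau hf hv E φ := by
  change tau hf hv (chE hf (kObj hf E)) ((chI hf (kObj hf E)).inv ≫ φ ≫
    (chI hf (kObj hf E)).hom⟦(2 : ℤ)⟧') = _
  rw [← Category.assoc, tau_cyc]
  simp only [Iso.hom_inv_id_assoc]

theorem exists_kkTr (hv : VG f) : ∃ τ : Pool.Agent.H63.KA.CycTrace (KK hf),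
    ∀ (E : MF f) (α : Matrix E.ι E.ι (Pol 5)) (hα : α ∈ MF.Z E E (3 * 2)),
      τ.tr (kObj hf E) (kNm hf 2 α hα) = MF.kap hv hf E α :=
  ⟨kkTr hf hv, fun E α hα => by rw [kkTr_kObj, tau_kNm]⟩

theorem exists_kkTr_ne (hv : VG f) : ∃ τ : Pool.Agent.H63.KA.CycTrace (KK hf),
    ∃ (F : KK hf) (k : F ⟶ F⟦(2 : ℤ)⟧), τ.tr F k ≠ 0 := by
  obtain ⟨τ, hτ⟩ := exists_kkTr hf hv
  obtain ⟨φ, hφ, hne⟩ := MF.kap_ne hv hf
  refine ⟨τ, kObj hf (MF.kst f hf), kNm hf 2 φ hφ, ?_⟩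
  rw [hτ]
  exact hne

end H24.Ku
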