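import Pool.Agent.H27.KD.Idem
import Pool.Agent.H27.KD.Chi
import Pool.Agent.H27.KD.Trace
import Pool.Agent.H27.KD.Gen2
import Pool.Agent.H27.Orl.OrlF
import Pool.Agent.H24.Ku.Final

/-!
# The category side of the final theorem
-/

open CategoryTheory CategoryTheory.Limits MvPolynomial KuMF Pretriangulated

set_option backward.isDefEq.respectTransparency false

noncomputable section

namespace H24.Ku

variable {f : Pol 5}

lemma coeff_ne_of_vg (hv : VG f) : f.coeff (Finsupp.single 5 3) ≠ 0 := by
  have h3 : (Finsupp.single (5 : Fin 6) 3).degree = 3 := by simp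
  have h := hv (X (⟨Finsupp.single 5 3, h3⟩ : CMon)) 1 (isHomogeneous_X _ _) (X_ne_zero _)
  rwa [aeval_X] at h

lemma ne_zero_of_vg (hv : VG f) : f ≠ 0 := by
  intro h
  apply coeff_ne_of_vg hv
  rw [h, coeff_zero]

variable (hf : f.IsHomogeneous 3)

theorem gen_all [h0 : Fact (f ≠ 0)] (hv : VG f) :
    (ObjectProperty.ofObj (genK hf)).triangEnvelopeIter 728 = ⊤ := by
  have key : ∀ j : ℕ, j ≤ 6 → ∀ E : MF f,
      (ObjectProperty.ofObj (genK hf)).triangEnvelopeIter (3 ^ j - 1)
        (kObj hf (MF.conesN E (6 - j))) := by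
    intro j
    induction j with
    | zero => exact fun _ E => dec_mem hf _ (MF.cones_dec hf E)
    | succ j ih =>
      intro hj E
      have h1 := gen_step hf hv (3 ^ j - 1) (6 - (j + 1)) (by omega) (fun E => by
        rw [show 6 - (j + 1) + 1 = 6 - j by omega]
        exact ih (by omega) E) E
      have h2 : 1 ≤ 3 ^ j := Nat.one_le_pow _ _ (by norm_num)
      rw [show 3 ^ (j + 1) - 1 = 3 * (3 ^ j - 1) + 2 by rw [pow_succ]; omega]
      exact h1
  rw [eq_top_iff]
  intro X _
  obtain ⟨E, ⟨e⟩⟩ := exists_kObj_iso X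
  exact retract_mem _ _ e.hom e.inv e.hom_inv_id (key 6 le_rfl E)

theorem exists_k3Data [h0 : Fact (f ≠ 0)] (hv : VG f) :
    Nonempty (Pool.Agent.H63.KA.K3Data (KK hf)) := by
  obtain ⟨τ, hτ⟩ := exists_kkTr_ne hf hv
  exact ⟨{
    ι := Fin 3
    fin := inferInstance
    G := genK hf
    n := 728
    gen := gen_all hf hv
    idem := kk_isIdempotentComplete hf h0.out
    tr := τ
    tr_ne := hτ
    chi_rad := kk_chi_rad hf hv }⟩

theorem kSide : KSide := by
  intro f hf hsm hv
  have h0 : Fact (f ≠ 0) := ⟨ne_zero_of_vg hv⟩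
  obtain ⟨kd⟩ := exists_k3Data hf hv
  exact ⟨KK hf, inferInstance, inferInstance, inferInstance, inferInstance, inferInstance,
    inferInstance, inferInstance, inferInstance, kd, psi hf h0.out (coeff_ne_of_vg hv),
    inferInstance, inferInstance, inferInstance, psi_full h0.out (coeff_ne_of_vg hv),
    psi_faithful h0.out (coeff_ne_of_vg hv)⟩

end H24.Ku
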