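import Mathlib

/-!
# KUD-24 OctGen: the cone of a composition, in `triangEnvelopeIter`

`cone_comp_mem`: the octahedral axiom (`Triangulated.someOctahedron`, `.mem`) gives a distinguished
triangle `Z₁ ⟶ Z₃ ⟶ Z₂ ⟶ Z₁⟦1⟧`, i.e. `Z₃` is in `extensionProduct (Z₁) (Z₂)`, and
`ObjectProperty.triangEnvelopeIter_add'` with `le_retractClosure` (compare the proof of the instance
`IsTriangulatedClosed₂ P.triangEnvelope` in Mathlib, `CategoryTheory/Triangulated/Generators.lean`).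
`retract_mem`: `i ≫ p = 𝟙 X` and `Y` in the class implies `X` in the class.
-/

open CategoryTheory CategoryTheory.Limits CategoryTheory.Pretriangulated

namespace H24.Ku

universe v u

variable {C : Type u} [Category.{v} C] [HasZeroObject C] [HasShift C ℤ] [Preadditive C]
  [∀ n : ℤ, (shiftFunctor C n).Additive] [Pretriangulated C]

theorem retract_mem (P : ObjectProperty C) (n : ℕ) {X Y : C} (i : X ⟶ Y) (p : Y ⟶ X)
    (h : i ≫ p = 𝟙 X) (hY : P.triangEnvelopeIter n Y) : P.triangEnvelopeIter n X :=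
  ObjectProperty.IsStableUnderRetracts.of_retract ⟨i, p, h⟩ hY

theorem cone_comp_mem [IsTriangulated C] (P : ObjectProperty C) {n m : ℕ} {A B D Z₁ Z₂ Z₃ : C}
    {f : A ⟶ B} {g : B ⟶ D} {h : A ⟶ D} (hfg : f ≫ g = h)
    {a₁ : B ⟶ Z₁} {b₁ : Z₁ ⟶ A⟦(1 : ℤ)⟧} (h₁ : Triangle.mk f a₁ b₁ ∈ distTriang C)
    {a₂ : D ⟶ Z₂} {b₂ : Z₂ ⟶ B⟦(1 : ℤ)⟧} (h₂ : Triangle.mk g a₂ b₂ ∈ distTriang C)
    {a₃ : D ⟶ Z₃} {b₃ : Z₃ ⟶ A⟦(1 : ℤ)⟧} (h₃ : Triangle.mk h a₃ b₃ ∈ distTriang C)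
    (hZ₁ : P.triangEnvelopeIter n Z₁) (hZ₂ : P.triangEnvelopeIter m Z₂) :
    P.triangEnvelopeIter (n + (m + 1)) Z₃ := by
  have o := Triangulated.someOctahedron hfg h₁ h₂ h₃
  rw [ObjectProperty.triangEnvelopeIter_add' P rfl]
  exact ObjectProperty.le_retractClosure _ _ ⟨_, _, _, _, _, o.mem, hZ₁, hZ₂⟩

end H24.Ku
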